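import Mathlib

set_option autoImplicit false

namespace Pool.Agent.H.MP_5e7104_an

/-- The cascade operator. -/
def S (a b : ℝ) (g : ℝ → ℝ) (t : ℝ) : ℝ :=
  a * g (2 * t) + (1 - b) * g (2 * t - 1) + (1 - a) * g (2 * t - 2) + b * g (2 * t - 3)

structure Pr (g : ℝ → ℝ) (s : ℝ) : Prop where
  cont : Continuous g
  left : ∀ t ≤ 0, g t = 0
  right : ∀ t ≥ 3, g t = 0
  sum : ∀ t ∈ Set.Icc (0 : ℝ) 1, g t + g (t + 1) + g (t + 2) = s

lemma S_lo {a b s : ℝ} {g : ℝ → ℝ} (h : Pr g s) {t : ℝ} (h0 : 0 ≤ t) (h1 : t ≤ 1 / 2) :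
    S a b g t = a * g (2 * t) ∧
    S a b g (t + 1) = a * g (2 * t + 2) + (1 - b) * g (2 * t + 1) + (1 - a) * g (2 * t) ∧
    S a b g (t + 2) = (1 - a) * g (2 * t + 2) + b * g (2 * t + 1) := by
  refine ⟨?_, ?_, ?_⟩
  · simp only [S]
    rw [h.left (2 * t - 1) (by linarith), h.left (2 * t - 2) (by linarith),
      h.left (2 * t - 3) (by linarith)]
    ring
  · simp only [S]
    rw [h.left (2 * (t + 1) - 3) (by linarith), show 2 * (t + 1) = 2 * t + 2 by ring,
      show 2 * t + 2 - 1 = 2 * t + 1 by ring, show 2 * t + 2 - 2 = 2 * t by ring]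
    ring
  · simp only [S]
    rw [h.right (2 * (t + 2)) (by linarith), h.right (2 * (t + 2) - 1) (by linarith),
      show 2 * (t + 2) - 2 = 2 * t + 2 by ring, show 2 * (t + 2) - 3 = 2 * t + 1 by ring]
    ring

lemma S_hi {a b s : ℝ} {g : ℝ → ℝ} (h : Pr g s) {t : ℝ} (h0 : 1 / 2 ≤ t) (h1 : t ≤ 1) :
    S a b g t = a * g (2 * t - 1 + 1) + (1 - b) * g (2 * t - 1) ∧
    S a b g (t + 1) = (1 - b) * g (2 * t - 1 + 2) + (1 - a) * g (2 * t - 1 + 1) +
      b * g (2 * t - 1) ∧
    S a b g (t + 2) = b * g (2 * t - 1 + 2) := by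
  refine ⟨?_, ?_, ?_⟩
  · simp only [S]
    rw [h.left (2 * t - 2) (by linarith), h.left (2 * t - 3) (by linarith),
      show 2 * t - 1 + 1 = 2 * t by ring]
    ring
  · simp only [S]
    rw [h.right (2 * (t + 1)) (by linarith), show 2 * (t + 1) - 1 = 2 * t - 1 + 2 by ring,
      show 2 * (t + 1) - 2 = 2 * t - 1 + 1 by ring, show 2 * (t + 1) - 3 = 2 * t - 1 by ring]
    ring
  · simp only [S]
    rw [h.right (2 * (t + 2)) (by linarith), h.right (2 * (t + 2) - 1) (by linarith),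
      h.right (2 * (t + 2) - 2) (by linarith), show 2 * (t + 2) - 3 = 2 * t - 1 + 2 by ring]
    ring

lemma Pr.S {a b s : ℝ} {g : ℝ → ℝ} (h : Pr g s) : Pr (S a b g) s := by
  refine ⟨?_, fun t ht => ?_, fun t ht => ?_, fun t ht => ?_⟩
  · have := h.cont
    unfold MP_5e7104_an.S
    fun_prop
  · simp only [MP_5e7104_an.S]
    rw [h.left (2 * t) (by linarith), h.left (2 * t - 1) (by linarith),
      h.left (2 * t - 2) (by linarith), h.left (2 * t - 3) (by linarith)]
    ring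
  · simp only [MP_5e7104_an.S]
    rw [h.right (2 * t) (by linarith), h.right (2 * t - 1) (by linarith),
      h.right (2 * t - 2) (by linarith), h.right (2 * t - 3) (by linarith)]
    ring
  · rcases le_total t (1 / 2) with h1 | h1
    · obtain ⟨e1, e2, e3⟩ := S_lo (a := a) (b := b) h ht.1 h1
      have := h.sum (2 * t) ⟨by linarith [ht.1], by linarith⟩
      rw [e1, e2, e3]
      linear_combination this
    · obtain ⟨e1, e2, e3⟩ := S_hi (a := a) (b := b) h h1 ht.2
      have := h.sum (2 * t - 1) ⟨by linarith, by linarith [ht.2]⟩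
      rw [e1, e2, e3]
      linear_combination this

lemma Pr.sub {s s' : ℝ} {g g' : ℝ → ℝ} (h : Pr g s) (h' : Pr g' s') :
    Pr (fun t => g t - g' t) (s - s') := by
  refine ⟨h.cont.sub h'.cont, fun t ht => ?_, fun t ht => ?_, fun t ht => ?_⟩
  · simp [h.left t ht, h'.left t ht]
  · simp [h.right t ht, h'.right t ht]
  · linear_combination h.sum t ht - h'.sum t ht

def Bd (g : ℝ → ℝ) (C : ℝ) : Prop :=
  ∀ t ∈ Set.Icc (0 : ℝ) 1, |g t| ≤ 2 * C ∧ |g (t + 2)| ≤ C

structure Par (a b : ℝ) : Prop where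
  a1 : 0.647 ≤ a
  a2 : a ≤ 0.649
  b1 : -0.193 ≤ b
  b2 : b ≤ -0.19
  orth : a * (1 - a) + (1 - b) * b = 0
  card : (1 - a) ^ 2 + a * b = 0

lemma lin_bd {p q x z C P Q : ℝ} (hp : |p| ≤ P) (hq : |q| ≤ Q) (hx : |x| ≤ 2 * C)
    (hz : |z| ≤ C) : |p * x + q * z| ≤ (2 * P + Q) * C := by
  have h1 : |p * x| ≤ P * (2 * C) := by
    rw [abs_mul]
    exact mul_le_mul hp hx (abs_nonneg _) ((abs_nonneg _).trans hp)
  have h2 : |q * z| ≤ Q * C := by
    rw [abs_mul]
    exact mul_le_mul hq hz (abs_nonneg _) ((abs_nonneg _).trans hq)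
  have := abs_add_le (p * x) (q * z)
  linarith

lemma Bd.S {a b C : ℝ} {g : ℝ → ℝ} (hp : Par a b) (h : Pr g 0) (hb : Bd g C) :
    Bd (S a b g) (0.94 * C) := by
  have hC : 0 ≤ C := (abs_nonneg _).trans (hb 0 ⟨le_rfl, zero_le_one⟩).2
  have := hp.a1
  have := hp.a2
  have := hp.b1
  have := hp.b2
  intro t ht
  rcases le_total t (1 / 2) with h1 | h1
  · obtain ⟨e1, -, e3⟩ := S_lo (a := a) (b := b) h ht.1 h1
    have hu : 2 * t ∈ Set.Icc (0 : ℝ) 1 := ⟨by linarith [ht.1], by linarith⟩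
    have hs := h.sum (2 * t) hu
    obtain ⟨hx, hz⟩ := hb (2 * t) hu
    have k1 := lin_bd (p := a) (q := 0) (P := 0.649) (Q := 0)
      (by rw [abs_le]; constructor <;> linarith) (by simp) hx hz
    have k2 := lin_bd (p := -b) (q := 1 - a - b) (P := 0.193) (Q := 0.546)
      (by rw [abs_le]; constructor <;> linarith) (by rw [abs_le]; constructor <;> linarith) hx hz
    rw [e1, e3]
    constructor
    · rw [show a * g (2 * t) = a * g (2 * t) + 0 * g (2 * t + 2) by ring]
      linarith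
    · rw [show (1 - a) * g (2 * t + 2) + b * g (2 * t + 1) =
        -b * g (2 * t) + (1 - a - b) * g (2 * t + 2) by linear_combination b * hs]
      linarith
  · obtain ⟨e1, -, e3⟩ := S_hi (a := a) (b := b) h h1 ht.2
    have hu : 2 * t - 1 ∈ Set.Icc (0 : ℝ) 1 := ⟨by linarith, by linarith [ht.2]⟩
    have hs := h.sum (2 * t - 1) hu
    obtain ⟨hx, hz⟩ := hb (2 * t - 1) hu
    have k1 := lin_bd (p := 1 - a - b) (q := -a) (P := 0.546) (Q := 0.649)
      (by rw [abs_le]; constructor <;> linarith) (by rw [abs_le]; constructor <;> linarith) hx hz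
    have k2 := lin_bd (p := 0) (q := b) (P := 0) (Q := 0.193)
      (by simp) (by rw [abs_le]; constructor <;> linarith) hx hz
    rw [e1, e3]
    constructor
    · rw [show a * g (2 * t - 1 + 1) + (1 - b) * g (2 * t - 1) =
        (1 - a - b) * g (2 * t - 1) + -a * g (2 * t - 1 + 2) by linear_combination a * hs]
      linarith
    · rw [show b * g (2 * t - 1 + 2) = 0 * g (2 * t - 1) + b * g (2 * t - 1 + 2) by ring]
      linarith

lemma Bd.all {C : ℝ} {g : ℝ → ℝ} (h : Pr g 0) (hb : Bd g C) (t : ℝ) : |g t| ≤ 3 * C := by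
  have hC : 0 ≤ C := (abs_nonneg _).trans (hb 0 ⟨le_rfl, zero_le_one⟩).2
  rcases le_total t 0 with h0 | h0
  · rw [h.left t h0, abs_zero]; linarith
  rcases le_total t 1 with h1 | h1
  · linarith [(hb t ⟨h0, h1⟩).1]
  rcases le_total t 2 with h2 | h2
  · have hu : t - 1 ∈ Set.Icc (0 : ℝ) 1 := ⟨by linarith, by linarith⟩
    have hs := h.sum _ hu
    obtain ⟨hx, hz⟩ := hb _ hu
    rw [sub_add_cancel] at hs
    rw [abs_le] at hx hz ⊢
    constructor <;> linarith [hx.1, hx.2, hz.1, hz.2]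
  rcases le_total t 3 with h3 | h3
  · have hu : t - 2 ∈ Set.Icc (0 : ℝ) 1 := ⟨by linarith, by linarith⟩
    have hz := (hb _ hu).2
    rw [sub_add_cancel] at hz
    linarith
  · rw [h.right t h3, abs_zero]; linarith

noncomputable def g0 (t : ℝ) : ℝ := max 0 (1 - |t - 1|)

lemma g0_pr : Pr g0 1 := by
  refine ⟨?_, fun t ht => ?_, fun t ht => ?_, fun t ht => ?_⟩
  · unfold g0; fun_prop
  · simp only [g0]
    rw [abs_of_nonpos (by linarith)]
    exact max_eq_left (by linarith)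
  · simp only [g0]
    rw [abs_of_nonneg (by linarith)]
    exact max_eq_left (by linarith)
  · obtain ⟨h0, h1⟩ := ht
    simp only [g0]
    rw [abs_of_nonpos (by linarith : t - 1 ≤ 0), abs_of_nonneg (by linarith : 0 ≤ t + 1 - 1),
      abs_of_nonneg (by linarith : 0 ≤ t + 2 - 1), max_eq_right (by linarith),
      max_eq_right (by linarith), max_eq_left (by linarith)]
    ring

lemma Pr.bdd {s : ℝ} {g : ℝ → ℝ} (h : Pr g s) : ∃ C, ∀ t, |g t| ≤ C := by
  obtain ⟨C, hC⟩ := (isCompact_Icc (a := (0 : ℝ)) (b := 3)).exists_bound_of_continuousOn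
    h.cont.continuousOn
  have h0 : 0 ≤ C := (norm_nonneg _).trans (hC 0 ⟨le_rfl, by norm_num⟩)
  refine ⟨C, fun t => ?_⟩
  rcases le_total t 0 with h1 | h1
  · rw [h.left t h1, abs_zero]; exact h0
  rcases le_total t 3 with h3 | h3
  · exact hC t ⟨h1, h3⟩
  · rw [h.right t h3, abs_zero]; exact h0

lemma exists_phi {a b : ℝ} (hp : Par a b) : ∃ φ, Pr φ 1 ∧ ∀ t, φ t = S a b φ t := by
  have p0 : Pr (fun t => S a b g0 t - g0 t) 0 := by
    simpa using (g0_pr.S (a := a) (b := b)).sub g0_pr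
  obtain ⟨C, hC⟩ := p0.bdd
  have hC0 : 0 ≤ C := (abs_nonneg _).trans (hC 0)
  set d : ℕ → ℝ → ℝ := fun n => (S a b)^[n] (fun t => S a b g0 t - g0 t) with hd
  have hs : ∀ n, d (n + 1) = S a b (d n) := fun n => by
    simp only [hd, Function.iterate_succ_apply']
  have key : ∀ n, Pr (d n) 0 ∧ Bd (d n) (0.94 ^ n * C) := by
    intro n
    induction n with
    | zero =>
      refine ⟨p0, fun t _ => ⟨?_, ?_⟩⟩
      · have := hC t
        simp only [hd, Function.iterate_zero, id_eq, pow_zero, one_mul]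
        linarith
      · have := hC (t + 2)
        simpa only [hd, Function.iterate_zero, id_eq, pow_zero, one_mul] using this
    | succ n ih =>
      rw [hs]
      refine ⟨ih.1.S, ?_⟩
      have := Bd.S hp ih.1 ih.2
      rwa [show (0.94 : ℝ) * (0.94 ^ n * C) = 0.94 ^ (n + 1) * C by ring] at this
  have hb : ∀ n t, ‖d n t‖ ≤ 3 * (0.94 ^ n * C) := fun n t => (key n).2.all (key n).1 t
  have hsum : Summable fun n : ℕ => 3 * ((0.94 : ℝ) ^ n * C) :=
    ((summable_geometric_of_lt_one (by norm_num) (by norm_num)).mul_right C).mul_left 3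
  have hst : ∀ t, Summable fun n => d n t := fun t =>
    Summable.of_norm_bounded hsum (fun n => hb n t)
  refine ⟨fun t => g0 t + ∑' n, d n t, ⟨?_, fun t ht => ?_, fun t ht => ?_, fun t ht => ?_⟩,
    fun t => ?_⟩
  · exact g0_pr.cont.add (continuous_tsum (fun n => (key n).1.cont) hsum hb)
  · simp [g0_pr.left t ht, fun n => (key n).1.left t ht]
  · simp [g0_pr.right t ht, fun n => (key n).1.right t ht]
  · have h1 := (((hst t).hasSum.add (hst (t + 1)).hasSum).add (hst (t + 2)).hasSum)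
    simp only [fun n => (key n).1.sum t ht] at h1
    have h2 := h1.unique hasSum_zero
    linear_combination g0_pr.sum t ht + h2
  · have h1 := ((((hst (2 * t)).hasSum.mul_left a).add
      ((hst (2 * t - 1)).hasSum.mul_left (1 - b))).add
      ((hst (2 * t - 2)).hasSum.mul_left (1 - a))).add ((hst (2 * t - 3)).hasSum.mul_left b)
    have h2 := h1.tsum_eq
    have h3 := (hst t).tsum_eq_zero_add
    simp only [hs, S] at h3
    rw [h2] at h3
    have h4 : d 0 t = S a b g0 t - g0 t := rfl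
    simp only [S] at h4 ⊢
    rw [h3, h4]
    ring

lemma card {a b : ℝ} (hp : Par a b) {φ : ℝ → ℝ} (h : Pr φ 1) (hf : ∀ t, φ t = S a b φ t) :
    φ (2 / 3) = 1 ∧ φ (5 / 3) = 0 ∧ φ (8 / 3) = 0 := by
  obtain ⟨e1, e2, e3⟩ := S_lo (a := a) (b := b) h (t := 1 / 3) (by norm_num) (by norm_num)
  obtain ⟨-, f2, f3⟩ := S_hi (a := a) (b := b) h (t := 2 / 3) (by norm_num) (by norm_num)
  have hs := h.sum (2 / 3) ⟨by norm_num, by norm_num⟩
  simp only [← hf] at e1 e2 e3 f2 f3
  norm_num at e1 e2 e3 f2 f3 hs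
  rw [e3] at f3
  rw [e1, e2, e3] at f2
  set x := φ (2 / 3)
  set y := φ (5 / 3)
  set z := φ (8 / 3)
  clear_value x y z
  have := hp.a1
  have := hp.a2
  have := hp.b1
  have := hp.b2
  have k1 : (1 - b * (1 - a)) * z = b ^ 2 * y := by linear_combination f3
  have k2 : (1 - (1 - b) * (1 - a + b)) * y = (1 - a) * (1 - b + a) * z := by
    linear_combination f2 + x * hp.card
  have k3 : ((1 - (1 - b) * (1 - a + b)) * (1 - b * (1 - a)) - (1 - a) * (1 - b + a) * b ^ 2) * y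
      = 0 := by
    linear_combination (1 - b * (1 - a)) * k2 + (1 - a) * (1 - b + a) * k1
  have p1 : 0.7 ≤ 1 - (1 - b) * (1 - a + b) := by nlinarith
  have p2 : 1 ≤ 1 - b * (1 - a) := by nlinarith
  have p3 : (1 - a) * (1 - b + a) ≤ 1 := by nlinarith
  have p4 : b ^ 2 ≤ 0.04 := by nlinarith
  have p5 : 0.7 ≤ (1 - (1 - b) * (1 - a + b)) * (1 - b * (1 - a)) := by nlinarith
  have p6 : (1 - a) * (1 - b + a) * b ^ 2 ≤ 0.04 := by nlinarith [sq_nonneg b]
  have hy : y = 0 := by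
    rcases mul_eq_zero.1 k3 with h0 | h0
    · linarith
    · exact h0
  have hz : z = 0 := by
    rw [hy, mul_zero] at k1
    rcases mul_eq_zero.1 k1 with h0 | h0
    · linarith
    · exact h0
  exact ⟨by linarith, hy, hz⟩

lemma exists_par : ∃ a b, Par a b := by
  have hc : ContinuousOn (fun x : ℝ => 2 * x ^ 3 - 2 * x ^ 2 + 2 * x - 1) (Set.Icc 0.6477 0.6479) :=
    by fun_prop
  obtain ⟨a, ⟨h1, h2⟩, ha⟩ := intermediate_value_Icc (by norm_num) hc
    (show (0 : ℝ) ∈ _ from ⟨by norm_num, by norm_num⟩)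
  simp only at ha
  refine ⟨a, a - 2 * a ^ 2, by linarith, by linarith, by nlinarith, by nlinarith, ?_, ?_⟩
  · linear_combination (-2 * a) * ha
  · linear_combination (-1) * ha

end Pool.Agent.H.MP_5e7104_an
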