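import Pool.Agent.H.MP_5e7104_an.A

set_option autoImplicit false

namespace Pool.Agent.H.MP_5e7104_an
open MeasureTheory

lemma Pr.ne {s : ℝ} {g : ℝ → ℝ} (h : Pr g s) {t : ℝ} (ht : g t ≠ 0) : 0 < t ∧ t < 3 := by
  constructor
  · by_contra hc
    exact ht (h.left t (not_lt.1 hc))
  · by_contra hc
    exact ht (h.right t (not_lt.1 hc))

lemma Pr.cs {s : ℝ} {g : ℝ → ℝ} (h : Pr g s) {c : ℝ} (hc : 0 < c) (p : ℝ) :
    HasCompactSupport fun t => g (c * t - p) := by
  refine HasCompactSupport.intro (isCompact_Icc (a := p / c) (b := (p + 3) / c)) fun t ht => ?_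
  by_contra hne
  obtain ⟨h1, h2⟩ := h.ne hne
  refine ht ⟨?_, ?_⟩
  · rw [div_le_iff₀ hc]; linarith
  · rw [le_div_iff₀ hc]; linarith

lemma Pr.int2 {s : ℝ} {g : ℝ → ℝ} (h : Pr g s) {c : ℝ} (hc : 0 < c) (p q : ℝ) :
    Integrable fun t => g (c * t - p) * g (c * t - q) := by
  have := h.cont
  exact Continuous.integrable_of_hasCompactSupport (by fun_prop) ((h.cs hc p).mul_right)

noncomputable def A (g : ℝ → ℝ) (s : ℝ) : ℝ := ∫ t, g t * g (t - s)

lemma A_scale (g : ℝ → ℝ) {c : ℝ} (hc : 0 < c) (p q : ℝ) :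
    ∫ t, g (c * t - p) * g (c * t - q) = A g (q - p) / c := by
  have h1 := Measure.integral_comp_mul_left (fun u => g (u - p) * g (u - q)) c
  have h2 := integral_sub_right_eq_self (μ := volume) (fun u => g u * g (u - (q - p))) p
  simp only [sub_sub_sub_cancel_right] at h2
  rw [h1, h2, abs_of_pos (inv_pos.2 hc), smul_eq_mul, A]
  field_simp

lemma A_neg (g : ℝ → ℝ) (s : ℝ) : A g (-s) = A g s := by
  have h1 := A_scale g one_pos s 0
  have h2 := A_scale g one_pos 0 s
  simp only [mul_comm (g (1 * _ - s))] at h1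
  rw [h1] at h2
  simpa using h2

lemma Pr.A_big {s : ℝ} {g : ℝ → ℝ} (h : Pr g s) {u : ℝ} (hu : 3 ≤ u) : A g u = 0 := by
  have : (fun t => g t * g (t - u)) = fun _ => 0 := by
    funext t
    rcases le_total t 3 with h3 | h3
    · rw [h.left (t - u) (by linarith), mul_zero]
    · rw [h.right t h3, zero_mul]
  simp [A, this]

def cf (a b : ℝ) : Fin 4 → ℝ := ![a, 1 - b, 1 - a, b]

lemma S_eq (a b : ℝ) (g : ℝ → ℝ) (t : ℝ) :
    S a b g t = ∑ i : Fin 4, cf a b i * g (2 * t - (i : ℕ)) := by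
  simp [S, cf, Fin.sum_univ_four]

lemma A_rec {a b : ℝ} {φ : ℝ → ℝ} (h : Pr φ 1) (hf : ∀ t, φ t = S a b φ t) (s : ℝ) :
    A φ s = ∑ i : Fin 4, ∑ j : Fin 4,
      cf a b i * cf a b j * (A φ (2 * s + (j : ℕ) - (i : ℕ)) / 2) := by
  have e : ∀ t, φ t * φ (t - s) = ∑ i : Fin 4, ∑ j : Fin 4,
      cf a b i * cf a b j * (φ (2 * t - (i : ℕ)) * φ (2 * t - (2 * s + (j : ℕ)))) := by
    intro t
    rw [hf t, hf (t - s), S_eq, S_eq, Finset.sum_mul_sum]
    refine Finset.sum_congr rfl fun i _ => Finset.sum_congr rfl fun j _ => ?_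
    rw [show 2 * (t - s) - ((j : ℕ) : ℝ) = 2 * t - (2 * s + (j : ℕ)) by ring]
    ring
  rw [A]
  simp only [e]
  rw [integral_finsetSum _ fun i _ => integrable_finsetSum _ fun j _ =>
    (h.int2 two_pos _ _).const_mul _]
  refine Finset.sum_congr rfl fun i _ => ?_
  rw [integral_finsetSum _ fun j _ => (h.int2 two_pos _ _).const_mul _]
  refine Finset.sum_congr rfl fun j _ => ?_
  rw [integral_const_mul, A_scale φ two_pos]

lemma Pr.three {s : ℝ} {g : ℝ → ℝ} (h : Pr g s) (t : ℝ) {k : ℤ}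
    (hk : k ∉ ({⌊t⌋, ⌊t⌋ - 1, ⌊t⌋ - 2} : Finset ℤ)) : g (t - k) = 0 := by
  by_contra hne
  obtain ⟨h1, h2⟩ := h.ne hne
  have k1 : k ≤ ⌊t⌋ := Int.le_floor.2 (by linarith)
  have k2 : ⌊t⌋ < k + 3 := Int.floor_lt.2 (by push_cast; linarith)
  simp only [Finset.mem_insert, Finset.mem_singleton] at hk
  omega

lemma sum3 {M : Type*} [AddCommMonoid M] (n : ℤ) (f : ℤ → M) :
    ∑ k ∈ ({n, n - 1, n - 2} : Finset ℤ), f k = f n + f (n - 1) + f (n - 2) := by
  rw [Finset.sum_insert (by simp; omega), Finset.sum_insert (by simp),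
    Finset.sum_singleton, add_assoc]

lemma Pr.pu3 {s : ℝ} {g : ℝ → ℝ} (h : Pr g s) (t : ℝ) :
    ∑ k ∈ ({⌊t⌋, ⌊t⌋ - 1, ⌊t⌋ - 2} : Finset ℤ), g (t - k) = s := by
  rw [sum3]
  have := h.sum (t - ⌊t⌋) ⟨by linarith [Int.floor_le t], by linarith [Int.lt_floor_add_one t]⟩
  push_cast
  rw [show t - (⌊t⌋ - 1) = t - ⌊t⌋ + 1 by ring, show t - (⌊t⌋ - 2) = t - ⌊t⌋ + 2 by ring]
  exact this

lemma Pr.pu {s : ℝ} {g : ℝ → ℝ} (h : Pr g s) (t : ℝ) (F : Finset ℤ)
    (hF : ∀ k ∉ F, g (t - k) = 0) : ∑ k ∈ F, g (t - k) = s := by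
  have h1 : HasSum (fun k : ℤ => g (t - k)) _ := hasSum_sum_of_ne_finset_zero hF
  have h2 : HasSum (fun k : ℤ => g (t - k)) _ :=
    hasSum_sum_of_ne_finset_zero fun k hk => h.three t hk
  rw [h1.unique h2, h.pu3]

lemma Pr.integral {g : ℝ → ℝ} (h : Pr g 1) : ∫ t, g t = 1 := by
  have hc := h.cont
  have e1 : ∫ t, g t = ∫ t in (0 : ℝ)..3, g t := by
    rw [intervalIntegral.integral_eq_integral_of_support_subset]
    intro t ht
    exact ⟨(h.ne ht).1, (h.ne ht).2.le⟩
  have e2 := intervalIntegral.integral_add_adjacent_intervals (μ := volume)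
    (hc.intervalIntegrable 0 1) (hc.intervalIntegrable 1 2)
  have e3 := intervalIntegral.integral_add_adjacent_intervals (μ := volume)
    (hc.intervalIntegrable 0 2) (hc.intervalIntegrable 2 3)
  have e4 := intervalIntegral.integral_comp_add_right (a := 0) (b := 1) g 1
  have e5 := intervalIntegral.integral_comp_add_right (a := 0) (b := 1) g 2
  have e6 : ∫ t in (0 : ℝ)..1, (g t + g (t + 1) + g (t + 2)) = 1 := by
    rw [intervalIntegral.integral_congr (g := fun _ => (1 : ℝ))]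
    · simp
    · intro t ht
      rw [Set.uIcc_of_le zero_le_one] at ht
      exact h.sum t ht
  rw [intervalIntegral.integral_add, intervalIntegral.integral_add, e4, e5] at e6
  · norm_num at e6
    linarith
  all_goals exact Continuous.intervalIntegrable (by fun_prop) _ _

lemma Pr.norm {g : ℝ → ℝ} (h : Pr g 1) : A g 0 + 2 * A g 1 + 2 * A g 2 = 1 := by
  have e : ∀ t, g t = ∑ k ∈ Finset.Icc (-2 : ℤ) 2, g (1 * t - 0) * g (1 * t - k) := by
    intro t
    simp only [one_mul, sub_zero]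
    rw [← Finset.mul_sum]
    by_cases ht : g t = 0
    · simp [ht]
    obtain ⟨h1, h2⟩ := h.ne ht
    rw [h.pu t, mul_one]
    intro k hk
    by_contra hne
    obtain ⟨h3, h4⟩ := h.ne hne
    have k1 : (k : ℝ) < 3 := by linarith
    have k2 : (-3 : ℝ) < k := by linarith
    have k3 : k < 3 := by exact_mod_cast k1
    have k4 : -3 < k := by exact_mod_cast k2
    exact hk (Finset.mem_Icc.2 ⟨by omega, by omega⟩)
  have h1 := h.integral
  rw [integral_congr_ae (Filter.Eventually.of_forall e),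
    integral_finsetSum _ fun k _ => h.int2 one_pos _ _] at h1
  simp only [A_scale g one_pos] at h1
  rw [show Finset.Icc (-2 : ℤ) 2 = {-2, -1, 0, 1, 2} by decide] at h1
  rw [Finset.sum_insert (by decide), Finset.sum_insert (by decide), Finset.sum_insert (by decide),
    Finset.sum_insert (by decide), Finset.sum_singleton] at h1
  norm_num [A_neg] at h1
  linarith

lemma orth {a b : ℝ} (hp : Par a b) {φ : ℝ → ℝ} (h : Pr φ 1) (hf : ∀ t, φ t = S a b φ t)
    (k : ℤ) : A φ k = if k = 0 then 1 else 0 := by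
  have r1 := A_rec h hf 1
  have r2 := A_rec h hf 2
  have z3 : A φ 3 = 0 := h.A_big le_rfl
  have z4 : A φ 4 = 0 := h.A_big (by norm_num)
  have z5 : A φ 5 = 0 := h.A_big (by norm_num)
  have z6 : A φ 6 = 0 := h.A_big (by norm_num)
  have z7 : A φ 7 = 0 := h.A_big (by norm_num)
  have c0 : cf a b 0 = a := rfl
  have c1 : cf a b 1 = 1 - b := rfl
  have c2 : cf a b 2 = 1 - a := rfl
  have c3 : cf a b 3 = b := rfl
  simp only [Fin.sum_univ_four, c0, c1, c2, c3] at r1 r2
  norm_num [A_neg, z3, z4, z5, z6, z7] at r1 r2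
  have hn := h.norm
  have := hp.a1
  have := hp.b2
  have ho := hp.orth
  have q2 : A φ 2 = a * b / 2 * A φ 1 := by linear_combination r2 + A φ 2 / 2 * ho
  have q1 : A φ 1 = 2 * A φ 2 := by
    linear_combination 2 * r1 + A φ 0 * ho - 2 * A φ 2 * ho
  have q3 : (1 - a * b) * A φ 1 = 0 := by linear_combination q1 + 2 * q2
  have y1 : A φ 1 = 0 := by
    rcases mul_eq_zero.1 q3 with h0 | h0
    · nlinarith
    · exact h0
  have y2 : A φ 2 = 0 := by linarith
  have y0 : A φ 0 = 1 := by linarith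
  have gen : ∀ n : ℤ, 0 < n → A φ n = 0 := by
    intro n hn
    rcases (by omega : n = 1 ∨ n = 2 ∨ 3 ≤ n) with rfl | rfl | h3
    · simpa using y1
    · simpa using y2
    · exact h.A_big (by exact_mod_cast h3)
  split_ifs with hk
  · simpa [hk] using y0
  · rcases lt_or_gt_of_ne hk with hk | hk
    · have := gen (-k) (by omega)
      rwa [Int.cast_neg, A_neg] at this
    · exact gen k hk

end Pool.Agent.H.MP_5e7104_an
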