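import Pool.Agent.H.MP_5e7104_an.B

set_option autoImplicit false

namespace Pool.Agent.H.MP_5e7104_an
open MeasureTheory

lemma supp_bd {f : ℝ → ℝ} (hf : HasCompactSupport f) : ∃ R > 0, ∀ t, R < |t| → f t = 0 := by
  obtain ⟨R, hR0, hR⟩ := hf.isCompact.isBounded.subset_closedBall_lt 0 0
  refine ⟨R, hR0, fun t ht => ?_⟩
  by_contra hne
  have := hR (subset_tsupport f hne)
  rw [mem_closedBall_zero_iff, Real.norm_eq_abs] at this
  linarith

lemma quasi {φ f : ℝ → ℝ} (h : Pr φ 1) {M R ε c : ℝ} (hM : ∀ t, |φ t| ≤ M)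
    (hR : ∀ t, R < |t| → f t = 0) (hc : 1 ≤ c) (hε : 0 ≤ ε)
    (hf : ∀ s t, |s - t| ≤ 3 / c → |f s - f t| ≤ ε) {N : ℕ} (hN : c * R ≤ N) (t : ℝ) :
    |f t - ∑ k ∈ Finset.Icc (-N : ℤ) N, f (k / c) * φ (c * t - k)| ≤
      (Set.Icc (-R - 3) (R + 3)).indicator (fun _ => 3 * (ε * M)) t := by
  have hc0 : 0 < c := by linarith
  have h1 : HasSum (fun k : ℤ => f (k / c) * φ (c * t - k))
      (∑ k ∈ Finset.Icc (-N : ℤ) N, f (k / c) * φ (c * t - k)) := by
    refine hasSum_sum_of_ne_finset_zero fun k hk => ?_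
    rw [hR, zero_mul]
    rw [abs_div, abs_of_pos hc0, lt_div_iff₀ hc0]
    rw [Finset.mem_Icc, ← abs_le, not_le] at hk
    have : (N : ℝ) < |(k : ℝ)| := by exact_mod_cast hk
    linarith
  have h2 : HasSum (fun k : ℤ => f (k / c) * φ (c * t - k)) _ :=
    hasSum_sum_of_ne_finset_zero fun k hk => by rw [h.three (c * t) hk, mul_zero]
  have h3 := h.pu3 (c * t)
  have near : ∀ k ∈ ({⌊c * t⌋, ⌊c * t⌋ - 1, ⌊c * t⌋ - 2} : Finset ℤ), |t - k / c| ≤ 3 / c := by
    intro k hk
    have a1 := Int.floor_le (c * t)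
    have a2 := Int.lt_floor_add_one (c * t)
    rw [show t - k / c = (c * t - k) / c by field_simp, abs_div, abs_of_pos hc0]
    refine div_le_div_of_nonneg_right ?_ hc0.le
    simp only [Finset.mem_insert, Finset.mem_singleton] at hk
    rw [abs_le]
    rcases hk with rfl | rfl | rfl <;> push_cast <;> constructor <;> linarith
  have e : f t - ∑ k ∈ ({⌊c * t⌋, ⌊c * t⌋ - 1, ⌊c * t⌋ - 2} : Finset ℤ), f (k / c) * φ (c * t - k)
      = ∑ k ∈ ({⌊c * t⌋, ⌊c * t⌋ - 1, ⌊c * t⌋ - 2} : Finset ℤ),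
        (f t - f (k / c)) * φ (c * t - k) := by
    simp only [sub_mul, Finset.sum_sub_distrib, ← Finset.mul_sum, h3, mul_one]
  rw [h1.unique h2, e]
  by_cases ht : t ∈ Set.Icc (-R - 3) (R + 3)
  · rw [Set.indicator_of_mem ht]
    refine (Finset.abs_sum_le_sum_abs _ _).trans ?_
    refine (Finset.sum_le_sum (g := fun _ => ε * M) fun k hk => ?_).trans ?_
    · rw [abs_mul]
      exact mul_le_mul (hf _ _ (near k hk)) (hM _) (abs_nonneg _) hε
    · rw [sum3]
      linarith
  · rw [Set.indicator_of_notMem ht]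
    have t1 : R + 3 < |t| := by
      by_contra hc
      rw [not_lt, abs_le] at hc
      exact ht ⟨by linarith [hc.1], hc.2⟩
    rw [Finset.sum_eq_zero, abs_zero]
    intro k hk
    have a1 := near k hk
    have a2 : 3 / c ≤ 3 := div_le_self (by norm_num) hc
    have a3 := abs_sub_abs_le_abs_sub t (k / c)
    rw [hR t (by linarith), hR (k / c) (by linarith), sub_self, zero_mul]

lemma dens {φ : ℝ → ℝ} (h : Pr φ 1) {G : ℝ → ℂ} (hG : LocallyIntegrable G volume)
    (hz : ∀ (n : ℕ) (k : ℤ), ∫ t, φ (2 ^ n * t - k) • G t = 0) : ∀ᵐ t, G t = 0 := by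
  refine ae_eq_zero_of_integral_contDiff_smul_eq_zero hG fun f hf hfc => ?_
  have hf := hf.continuous
  obtain ⟨R, -, hR⟩ := supp_bd hfc
  obtain ⟨M, hM⟩ := h.bdd
  have hu := hfc.uniformContinuous_of_continuous hf
  have hI : IntegrableOn (fun t => ‖G t‖) (Set.Icc (-R - 3) (R + 3)) volume :=
    (hG.integrableOn_isCompact isCompact_Icc).norm
  set I := ∫ t in Set.Icc (-R - 3) (R + 3), ‖G t‖
  have key : ∀ ε > 0, ‖∫ t, f t • G t‖ ≤ 3 * (ε * M) * I := by
    intro ε hε
    obtain ⟨δ, hδ, hd⟩ := Metric.uniformContinuous_iff.1 hu ε hε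
    obtain ⟨n, hn⟩ := pow_unbounded_of_one_lt (3 / δ) (one_lt_two (α := ℝ))
    obtain ⟨N, hN⟩ := exists_nat_ge ((2 : ℝ) ^ n * R)
    have hc : (0 : ℝ) < 2 ^ n := by positivity
    have hq := quasi h hM hR (one_le_pow₀ one_le_two) hε.le (fun s t hst => by
      have : dist s t < δ := by
        rw [Real.dist_eq]
        refine hst.trans_lt ?_
        rw [div_lt_iff₀ hδ] at hn
        rw [div_lt_iff₀ hc]
        linarith
      exact (hd this).le) hN
    have hφ := h.cont
    have i1 : ∀ k : ℤ, Integrable fun t => (f (k / 2 ^ n) * φ (2 ^ n * t - k)) • G t := fun k =>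
      hG.integrable_smul_left_of_hasCompactSupport (by fun_prop) (h.cs hc k).mul_left
    have i2 : Integrable fun t => f t • G t := hG.integrable_smul_left_of_hasCompactSupport hf hfc
    have e0 : ∫ t, ∑ k ∈ Finset.Icc (-N : ℤ) N, (f (k / 2 ^ n) * φ (2 ^ n * t - k)) • G t = 0 := by
      rw [integral_finsetSum _ fun k _ => i1 k]
      refine Finset.sum_eq_zero fun k _ => ?_
      simp only [mul_smul]
      rw [integral_smul, hz, smul_zero]
    have e1 : ∫ t, f t • G t = ∫ t, (f t - ∑ k ∈ Finset.Icc (-N : ℤ) N,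
        f (k / 2 ^ n) * φ (2 ^ n * t - k)) • G t := by
      simp only [sub_smul, Finset.sum_smul]
      rw [integral_sub i2 (integrable_finsetSum _ fun k _ => i1 k), e0, sub_zero]
    rw [e1, ← integral_const_mul, ← integral_indicator measurableSet_Icc]
    refine norm_integral_le_of_norm_le ?_ (Filter.Eventually.of_forall fun t => ?_)
    · exact (integrable_indicator_iff measurableSet_Icc).2 (hI.const_mul _)
    · rw [norm_smul, Real.norm_eq_abs]
      refine (mul_le_mul_of_nonneg_right (hq t) (norm_nonneg _)).trans (le_of_eq ?_)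
      by_cases ht : t ∈ Set.Icc (-R - 3) (R + 3)
      · simp only [Set.indicator_of_mem ht]
      · simp only [Set.indicator_of_notMem ht, zero_mul]
  have lim : Filter.Tendsto (fun ε : ℝ => 3 * (ε * M) * I) (nhdsWithin 0 (Set.Ioi 0))
      (nhds (3 * (0 * M) * I)) :=
    (Continuous.tendsto (by fun_prop) 0).mono_left nhdsWithin_le_nhds
  have := ge_of_tendsto lim (eventually_nhdsWithin_of_forall key)
  simpa using this

end Pool.Agent.H.MP_5e7104_an
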