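import Pool.Agent.H.MP_5e7104_an.C

set_option autoImplicit false

namespace Pool.Agent.H.MP_5e7104_an
open MeasureTheory
open scoped InnerProductSpace

noncomputable abbrev HH := Lp ℂ 2 (volume : Measure ℝ)

lemma mem2 {f : ℝ → ℝ} (hf : Continuous f) (hc : HasCompactSupport f) :
    MemLp (fun t => (f t : ℂ)) 2 volume :=
  Continuous.memLp_of_hasCompactSupport (by fun_prop) (hc.comp_left (g := fun x : ℝ => (x : ℂ))
    Complex.ofReal_zero)

lemma inner_T {f : ℝ → ℝ} (hf : MemLp (fun t => (f t : ℂ)) 2 volume) (g : HH) :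
    ⟪hf.toLp _, g⟫_ℂ = ∫ t, f t • g t := by
  rw [L2.inner_def]
  refine integral_congr_ae ?_
  filter_upwards [hf.coeFn_toLp] with t ht
  rw [ht]
  simp [mul_comm]

lemma inner_TT {f g : ℝ → ℝ} (hf : MemLp (fun t => (f t : ℂ)) 2 volume)
    (hg : MemLp (fun t => (g t : ℂ)) 2 volume) :
    ⟪hf.toLp _, hg.toLp _⟫_ℂ = ((∫ t, f t * g t : ℝ) : ℂ) := by
  rw [inner_T, ← integral_complex_ofReal]
  refine integral_congr_ae ?_
  filter_upwards [hg.coeFn_toLp] with t ht
  rw [ht]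
  simp

noncomputable def sc (j : ℤ) : ℝ := (2 : ℝ) ^ ((j : ℝ) / 2)

lemma sc_pos (j : ℤ) : 0 < sc j := by unfold sc; positivity

lemma sc_sq (j : ℤ) : sc j * sc j = 2 ^ j := by
  rw [sc, ← Real.rpow_add two_pos, add_halves, Real.rpow_intCast]

noncomputable def dr (φ : ℝ → ℝ) (j k : ℤ) (t : ℝ) : ℝ := sc j * φ (2 ^ j * t - k)

lemma Pr.mem {φ : ℝ → ℝ} (h : Pr φ 1) (j k : ℤ) :
    MemLp (fun t => (dr φ j k t : ℂ)) 2 volume := by
  have := h.cont
  exact mem2 (by unfold dr; fun_prop) (h.cs (zpow_pos two_pos j) k).mul_left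

noncomputable def e {φ : ℝ → ℝ} (h : Pr φ 1) (j k : ℤ) : HH := (h.mem j k).toLp _

noncomputable def W {φ : ℝ → ℝ} (h : Pr φ 1) (j : ℤ) : Submodule ℂ HH :=
  (Submodule.span ℂ (Set.range (e h j))).topologicalClosure

lemma e_mem {φ : ℝ → ℝ} (h : Pr φ 1) (j k : ℤ) : e h j k ∈ W h j :=
  Submodule.le_topologicalClosure _ (Submodule.subset_span ⟨k, rfl⟩)

lemma e_orth {φ : ℝ → ℝ} (h : Pr φ 1) (ho : ∀ k : ℤ, A φ k = if k = 0 then 1 else 0)
    (j k l : ℤ) : ⟪e h j k, e h j l⟫_ℂ = if k = l then 1 else 0 := by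
  rw [e, e, inner_TT]
  have hc : (0 : ℝ) < 2 ^ j := zpow_pos two_pos j
  have : ∀ t, dr φ j k t * dr φ j l t = 2 ^ j * (φ (2 ^ j * t - k) * φ (2 ^ j * t - l)) := by
    intro t
    rw [dr, dr, ← sc_sq]
    ring
  simp only [this]
  rw [integral_const_mul, A_scale φ hc, mul_div_cancel₀ _ hc.ne', ← Int.cast_sub, ho]
  by_cases hk : k = l
  · simp [hk]
  · rw [if_neg (by omega), if_neg hk, Complex.ofReal_zero]

lemma nested {a b : ℝ} {φ : ℝ → ℝ} (h : Pr φ 1) (hf : ∀ t, φ t = S a b φ t) (j : ℤ) :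
    W h j ≤ W h (j + 1) := by
  refine Submodule.topologicalClosure_mono (Submodule.span_le.2 ?_)
  rintro _ ⟨k, rfl⟩
  have : e h j k = ∑ i : Fin 4, ((cf a b i * sc j / sc (j + 1) : ℝ) : ℂ) •
      e h (j + 1) (2 * k + (i : ℕ)) := by
    refine Lp.ext ?_
    have h1 : ∀ᵐ t, ∀ i : Fin 4, (((cf a b i * sc j / sc (j + 1) : ℝ) : ℂ) •
        e h (j + 1) (2 * k + (i : ℕ))) t = ((cf a b i * sc j / sc (j + 1) *
          dr φ (j + 1) (2 * k + (i : ℕ)) t : ℝ) : ℂ) := by
      refine ae_all_iff.2 fun i => ?_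
      filter_upwards [Lp.coeFn_smul ((cf a b i * sc j / sc (j + 1) : ℝ) : ℂ)
        (e h (j + 1) (2 * k + (i : ℕ))), (h.mem (j + 1) (2 * k + (i : ℕ))).coeFn_toLp]
        with t t1 t2
      rw [t1, Pi.smul_apply, e, t2, smul_eq_mul, ← Complex.ofReal_mul]
    filter_upwards [h1, Lp.coeFn_fun_finsetSum Finset.univ fun i : Fin 4 =>
      ((cf a b i * sc j / sc (j + 1) : ℝ) : ℂ) • e h (j + 1) (2 * k + (i : ℕ)),
      (h.mem j k).coeFn_toLp] with t t1 t2 t3
    rw [t2, e, t3]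
    simp only [t1]
    rw [← Complex.ofReal_sum, dr, hf, S_eq, Finset.mul_sum]
    congr 1
    refine Finset.sum_congr rfl fun i _ => ?_
    have := (sc_pos (j + 1)).ne'
    rw [dr, zpow_add_one₀ two_ne_zero]
    push_cast
    rw [show 2 ^ j * 2 * t - (2 * (k : ℝ) + (i : ℕ)) = 2 * (2 ^ j * t - k) - (i : ℕ) by ring]
    field_simp
  rw [this]
  exact Submodule.sum_mem _ fun i _ => Submodule.smul_mem _ _ (Submodule.subset_span ⟨_, rfl⟩)

lemma dense {a b : ℝ} {φ : ℝ → ℝ} (h : Pr φ 1) (hf : ∀ t, φ t = S a b φ t) :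
    Dense (⋃ j, (W h j : Set HH)) := by
  have hm : Monotone (W h) := monotone_int_of_le_succ (nested h hf)
  rw [← Submodule.coe_iSup_of_directed _ hm.directed_le,
    Submodule.dense_iff_topologicalClosure_eq_top, Submodule.topologicalClosure_eq_top_iff,
    Submodule.eq_bot_iff]
  intro g hg
  refine Lp.ext ?_
  refine (dens h ((Lp.memLp g).locallyIntegrable one_le_two) fun n k => ?_).mp ?_
  · have h1 := Submodule.inner_right_of_mem_orthogonal
      (Submodule.mem_iSup_of_mem (n : ℤ) (e_mem h n k)) hg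
    rw [e, inner_T] at h1
    simp only [dr, mul_smul, zpow_natCast] at h1
    rw [integral_smul, smul_eq_zero] at h1
    exact h1.resolve_left (sc_pos _).ne'
  · filter_upwards [Lp.coeFn_zero ℂ 2 (volume : Measure ℝ)] with t t1 t2
    rw [t1, t2, Pi.zero_apply]

lemma small {φ : ℝ → ℝ} (h : Pr φ 1) (ho : ∀ k : ℤ, A φ k = if k = 0 then 1 else 0)
    {j : ℤ} {g F : HH} (hg : g ∈ W h j) (K : Finset ℤ) (hK : ∀ k ∉ K, ⟪e h j k, F⟫_ℂ = 0) :
    ‖⟪F, g⟫_ℂ‖ ≤ (∑ k ∈ K, ‖⟪e h j k, F⟫_ℂ‖) * ‖g‖ := by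
  set u := ∑ k ∈ K, ⟪e h j k, F⟫_ℂ • e h j k with hu
  have h1 : F - u ∈ (W h j)ᗮ := by
    rw [W, Submodule.orthogonal_closure, Submodule.mem_orthogonal]
    intro x hx
    induction hx using Submodule.span_induction with
    | mem x hx =>
      obtain ⟨l, rfl⟩ := hx
      rw [inner_sub_right, hu, inner_sum]
      simp only [inner_smul_right, e_orth h ho, mul_ite, mul_one, mul_zero, Finset.sum_ite_eq]
      split_ifs with hl
      · exact sub_self _
      · rw [hK l hl, sub_self]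
    | zero => exact inner_zero_left _
    | add x y _ _ hx hy => rw [inner_add_left, hx, hy, add_zero]
    | smul c x _ hx => rw [inner_smul_left, hx, mul_zero]
  have h2 := Submodule.inner_left_of_mem_orthogonal hg h1
  rw [inner_sub_left, sub_eq_zero] at h2
  rw [h2]
  refine (norm_inner_le_norm _ _).trans (mul_le_mul_of_nonneg_right ?_ (norm_nonneg _))
  refine (norm_sum_le _ _).trans (Finset.sum_le_sum fun k _ => ?_)
  have h3 : ‖e h j k‖ = 1 := by
    have := e_orth h ho j k k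
    have h4 : ‖e h j k‖ ^ 2 = 1 := by
      rw [@norm_sq_eq_re_inner ℂ, this, if_pos rfl, RCLike.one_re]
    exact (sq_eq_sq₀ (norm_nonneg _) zero_le_one).1 (by rw [h4, one_pow])
  rw [norm_smul, h3, mul_one]

lemma triv {φ : ℝ → ℝ} (h : Pr φ 1) (ho : ∀ k : ℤ, A φ k = if k = 0 then 1 else 0) {g : HH}
    (hg : ∀ j, g ∈ W h j) : g = 0 := by
  refine Lp.ext ?_
  refine (ae_eq_zero_of_integral_contDiff_smul_eq_zero
    ((Lp.memLp g).locallyIntegrable one_le_two) fun f hf hfc => ?_).mp ?_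
  swap
  · filter_upwards [Lp.coeFn_zero ℂ 2 (volume : Measure ℝ)] with t t1 t2
    rw [t1, t2, Pi.zero_apply]
  have hf := hf.continuous
  obtain ⟨R, hR0, hR⟩ := supp_bd hfc
  obtain ⟨M, hM⟩ := h.bdd
  have hi : Integrable f := hf.integrable_of_hasCompactSupport hfc
  rw [← inner_T (mem2 hf hfc)]
  set I := ∫ t, |f t|
  have key : ∀ j : ℤ, 2 ^ j * R < 1 →
      ‖⟪(mem2 hf hfc).toLp _, g⟫_ℂ‖ ≤ 4 * (sc j * M * I) * ‖g‖ := by
    intro j hj
    have hc : (0 : ℝ) < 2 ^ j := zpow_pos two_pos j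
    refine (small h ho (hg j) (Finset.Icc (-3) 0) fun k hk => ?_).trans
      (mul_le_mul_of_nonneg_right ?_ (norm_nonneg _))
    · rw [e, inner_TT]
      have : ∀ t, dr φ j k t * f t = 0 := by
        intro t
        by_contra hne
        obtain ⟨n1, n2⟩ := mul_ne_zero_iff.1 hne
        obtain ⟨n3, n4⟩ := h.ne (mul_ne_zero_iff.1 n1).2
        have n5 : |t| ≤ R := not_lt.1 fun hc => n2 (hR t hc)
        rw [abs_le] at n5
        have k1 : (k : ℝ) < 1 := by nlinarith [n5.1, n5.2]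
        have k2 : (-4 : ℝ) < k := by nlinarith [n5.1, n5.2]
        have k3 : k < 1 := by exact_mod_cast k1
        have k4 : -4 < k := by exact_mod_cast k2
        exact hk (Finset.mem_Icc.2 ⟨by omega, by omega⟩)
      simp [this]
    · refine (Finset.sum_le_card_nsmul _ _ (sc j * M * I) fun k _ => ?_).trans ?_
      · rw [e, inner_TT, Complex.norm_real, ← integral_const_mul]
        refine norm_integral_le_of_norm_le (hi.abs.const_mul _)
          (Filter.Eventually.of_forall fun t => ?_)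
        rw [dr, Real.norm_eq_abs, abs_mul, abs_mul, abs_of_pos (sc_pos j)]
        exact mul_le_mul_of_nonneg_right (mul_le_mul_of_nonneg_left (hM _) (sc_pos j).le)
          (abs_nonneg _)
      · simp
  have l1 : Filter.Tendsto (fun j : ℤ => sc j) Filter.atBot (nhds 0) := by
    refine (tendsto_rpow_atBot_of_base_gt_one 2 one_lt_two).comp ?_
    exact (tendsto_intCast_atBot_iff (R := ℝ) |>.2 Filter.tendsto_id).atBot_div_const two_pos
  have l2 : Filter.Tendsto (fun j : ℤ => (2 : ℝ) ^ j * R) Filter.atBot (nhds (0 * 0 * R)) := by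
    simp only [← sc_sq]
    exact (l1.mul l1).mul_const R
  have l3 : Filter.Tendsto (fun j : ℤ => 4 * (sc j * M * I) * ‖g‖) Filter.atBot
      (nhds (4 * (0 * M * I) * ‖g‖)) :=
    ((((l1.mul_const M).mul_const I).const_mul 4).mul_const _)
  have := ge_of_tendsto l3 ((l2.eventually_lt_const (by norm_num)).mono key)
  simpa using this

end Pool.Agent.H.MP_5e7104_an
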